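import Pool.Agent.H35.AC.Defs
import Pool.Agent.H51.PF.Tyt
import Pool.Agent.H24.RK.Nrm
import Pool.Agent.H35.UB.Fin

/-!
# H51-AC2: the statements of the chapters AP, BL, GP which give the P-level theorem of stage 2 (MP_b39724_nt)

As H35/AC/Defs.lean, with types at `S0` up to conjugation by `T` (`SYT` of H51/PF/Tyt.lean) and local data `L` normalised by a root of unity of order `p ^ n` (`NL` of H24/RK/Nrm.lean).
`K ⊂ QBar` a number field with the roots of unity of order `p ^ n`, `P` a finite `p`-group, `c` representatives of some classes, `T` their normal closure.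
* `APlT`, `APpT`, `APuT`: the asymptotic formula, the positivity (for the type of a surjective `φ₀` unramified outside `S0`) and the uniform upper bound for `Rch`.
* `APst2 p`, `BL2 p`, `GP2 p`: the statements of the three chapters.
-/

set_option autoImplicit false

open scoped NumberField
open IsDedekindDomain Filter Topology
open scoped Classical

noncomputable section

namespace H51.AC2

open H38.ML H63.MA H38.BB H38.BG H57.PC H57.BRA H38.AS H77.WD H77.PC3 H77.S0T H77.FLD H77.PLF H35.CF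
  H35.UB H35.AC H51.PF H24.RK

section one

variable {K : IntermediateField ℚ QBar} [NumberField K] {p : ℕ} {ζ : K}

/-- AP: the asymptotic formula for the homomorphisms of the local type of `φ₁` up to conjugation by `T` with all classes rich -/
def APlT (D : RD0 K p ζ) {P : Type} [Group P] {N : ℕ} (c : CL p N P) (T : Subgroup P) (n : ℕ)
    (z : K) : Prop :=
  ∃ M : ℕ, ∀ ε : ℝ, 0 < ε → ε < 1 →
    ∀ (L : LDs D QBar) (_ : NL n z L) (Q : DP K QBar) (_ : LQ L Q) (φ₁ : Gal(QBar/K) →* P),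
      FT φ₁ → ∃ l : ℝ, Tendsto (fun Y : ℝ =>
        ({φ | φ ∈ SYT L Q c T φ₁ Y ∧ Rch L c ∅ M ε Y φ}.ncard : ℝ) / (Y * Real.log Y ^ (N - 1)))
        atTop (𝓝 l)

/-- AP: positivity for the type of a surjective homomorphism unramified outside `S0` -/
def APpT (D : RD0 K p ζ) {P : Type} [Group P] {N : ℕ} (c : CL p N P) (T : Subgroup P) (n : ℕ)
    (z : K) : Prop :=
  ∃ M : ℕ, ∃ ε : ℝ, ∀ (L : LDs D QBar) (_ : NL n z L) (Q : DP K QBar) (_ : LQ L Q)
    (φ₀ : Gal(QBar/K) →* P), FT φ₀ → Function.Surjective φ₀ →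
      (∀ v, v ∉ D.S0 → ∀ τ ∈ inr L v, φ₀ τ = 1) → ∃ c₀ : ℝ, 0 < c₀ ∧ ∀ᶠ Y : ℝ in atTop,
        c₀ * (Y * Real.log Y ^ (N - 1)) ≤
          ({φ | φ ∈ SYT L Q c T φ₀ Y ∧ Rch L c ∅ M ε Y φ}.ncard : ℝ)

/-- AP: the upper bound, uniformly in the exceptional set `E` -/
def APuT (D : RD0 K p ζ) {P : Type} [Group P] {N : ℕ} (c : CL p N P) (n : ℕ) (z : K) : Prop :=
  ∃ M : ℕ, ∀ (L : LDs D QBar) (_ : NL n z L) (A₁ ε η : ℝ), 0 < ε → ε < 1 → 0 < η →
    ∃ C Y₀ : ℝ, 1 ≤ C ∧ 3 ≤ Y₀ ∧ ∀ (E : Finset (Pl K)) (Y : ℝ), Y₀ ≤ Y →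
      nr E ≤ Real.log Y ^ A₁ → (∀ v ∈ E, v ∉ D.S0) →
      {φ | φ ∈ PU L c E Y ∧ Rch L c E M ε Y φ}.Finite ∧
      ({φ | φ ∈ PU L c E Y ∧ Rch L c E M ε Y φ}.ncard : ℝ) ≤
        C ^ (E.card + 1) * nr E ^ η * Y * Real.log Y ^ (N - 1)

end one

/-- AP: the three statements for all `p`-groups and full series -/
def APst2 (p : ℕ) : Prop :=
  ∀ (P : Type) [Group P] [Finite P] (_ : IsPGroup p P), ∃ n : ℕ,
    ∀ (N : ℕ) (c : CL p N P) (T : Subgroup P) (_ : 1 ≤ N) (_ : ∀ i, c.g i ∈ T) (_ : Ser c T)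
      (K : IntermediateField ℚ QBar) [NumberField K] (ζ : K) (_ : IsPrimitiveRoot ζ p) (z : K)
      (_ : IsPrimitiveRoot z (p ^ (n + 1))) (_ : z ^ p ^ n = ζ) (D : RD K p ζ),
      APlT D.toRD0 c T (n + 1) z ∧ APpT D.toRD0 c T (n + 1) z ∧ APuT D.toRD0 c (n + 1) z

/-- BL: the box lemma for groups of exponent dividing `p ^ κ` -/
def BL2 (p : ℕ) : Prop :=
  ∀ κ m : ℕ, ∃ M : ℕ, ∀ (K : IntermediateField ℚ QBar) [NumberField K] (ζ : K)
    (_ : IsPrimitiveRoot ζ p) (z : K) (_ : IsPrimitiveRoot z (p ^ M)) (D : RD K p ζ)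
    (A : GS D.toRD0 QBar), BLst D.toRD0 QBar A κ m

/-- GP: the gap principle for groups of exponent dividing `p ^ κ` -/
def GP2 (p : ℕ) : Prop :=
  ∀ κ : ℕ, ∃ M : ℕ, ∀ (K : IntermediateField ℚ QBar) [NumberField K] (ζ : K)
    (_ : IsPrimitiveRoot ζ p) (z : K) (_ : IsPrimitiveRoot z (p ^ M)) (D : RD K p ζ),
    GPU D.toRD0 QBar κ

end H51.AC2
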