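import Pool.Agent.H51.AC2.Pl
import Pool.Agent.H51.PF.Fit
import Pool.Agent.H35.UB.Fin

/-!
# H51-AC2-FIN: the P-level theorem of stage 2 (MP_b39724_nt), assembly

* `plvT`: `PLvT p` from `APst2 p` (chapter AP2), `BL2 p` (chapter BL), `GP2 p` (chapter GP).
* `ns_of`: THEOREM NS from the three chapters.
-/

set_option autoImplicit false

open scoped NumberField
open IsDedekindDomain Filter Topology
open scoped Classical

noncomputable section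

namespace H51.AC2

open H38.ML H63.MA H38.BB H38.BG H57.PC H57.BRA H57.CC H38.AS H77.WD H77.WE H77.PC3 H77.S0T H77.FLD
  H77.PLF H35.UB H35.AC H51.PF H24.RK

theorem prm_pow {K : Type} [Field K] {p M M' : ℕ} (hp : p.Prime) {z : K}
    (hz : IsPrimitiveRoot z (p ^ M)) (h : M' ≤ M) : ∃ z' : K, IsPrimitiveRoot z' (p ^ M') := by
  refine ⟨z ^ (p ^ (M - M')), hz.pow (pow_pos hp.pos _) ?_⟩
  rw [← pow_add]
  congr 1
  omega

theorem plvT {p : ℕ} (hp : p.Prime) (hA : APst2 p) (hB : BL2 p) (hG : GP2 p) : PLvT p := by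
  intro P _ _ hPg
  haveI : NeZero p := ⟨hp.ne_zero⟩
  haveI : Fintype P := Fintype.ofFinite P
  haveI : Fact p.Prime := ⟨hp⟩
  obtain ⟨n, hAn⟩ := hA P hPg
  obtain ⟨κ, hκ⟩ : ∃ κ : ℕ, ∀ x : P, x ^ (p ^ κ) = 1 := by
    obtain ⟨κ, hκ⟩ := IsPGroup.iff_card.1 hPg
    exact ⟨κ, fun x => by rw [← hκ]; exact pow_card_eq_one'⟩
  obtain ⟨MB, hMB⟩ := hB κ (Nat.card P)
  obtain ⟨MG, hMG⟩ := hG κ
  refine ⟨n + MB + MG + 2, by omega, fun N c T hN hcT hser => ?_⟩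
  have key : ∀ (K : IntermediateField ℚ QBar) [NumberField K] (ζ : K) (_ : IsPrimitiveRoot ζ p)
      (z : K) (_ : IsPrimitiveRoot z (p ^ (n + MB + MG + 2))) (D : RD K p ζ),
      UBK D.toRD0 c ∧ ∃ z' : K, IsPrimitiveRoot z' (p ^ (n + 1)) ∧ z' ^ p ^ n = ζ ∧
        APlT D.toRD0 c T (n + 1) z' ∧ APpT D.toRD0 c T (n + 1) z' ∧
        APuT D.toRD0 c (n + 1) z' := by
    intro K _ ζ hζ z hz D
    obtain ⟨zA, hzA⟩ := prm_pow hp hz (show n + 1 ≤ n + MB + MG + 2 by omega)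
    obtain ⟨zB, hzB⟩ := prm_pow hp hz (show MB ≤ n + MB + MG + 2 by omega)
    obtain ⟨zG, hzG⟩ := prm_pow hp hz (show MG ≤ n + MB + MG + 2 by omega)
    obtain ⟨z', hz', hz2⟩ := zn_norm hp hζ hzA
    refine ⟨ubf hp hζ D.toRD0 κ hκ (hMG K ζ hζ zG hzG D) (fun A => hMB K ζ hζ zB hzB D A) c,
      z', hz', hz2, hAn N c T hN hcT hser K ζ hζ z' hz' hz2 D⟩
  refine ⟨?_, ?_, ?_⟩
  · intro K _ ζ hζ z hz D L Q hLQ φ₁ hφ
    obtain ⟨h1, z', hz', hz2, h2, -, -⟩ := key K ζ hζ z hz D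
    obtain ⟨L', hL', hLL⟩ := nl_exists (Ω := QBar) hp hz' hζ hz2 L
    have hLP : ∀ v hv, (L'.ld v hv).P = (L.ld v hv).P := fun v hv => (hLL v hv).1
    obtain ⟨l, hl⟩ := pl_limT hp hζ hPg hN c T h1 h2 L' hL' Q (trn_lq hLP hLQ) φ₁ hφ
    refine ⟨l, hl.congr fun Y => ?_⟩
    rw [trn_syt hp hζ hLP Q c T φ₁ Y]
  · intro K _ ζ hζ z hz D L η hη
    obtain ⟨h1, z', hz', hz2, -, -, h4⟩ := key K ζ hζ z hz D
    obtain ⟨L', hL', hLL⟩ := nl_exists (Ω := QBar) hp hz' hζ hz2 L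
    have hLP : ∀ v hv, (L'.ld v hv).P = (L.ld v hv).P := fun v hv => (hLL v hv).1
    obtain ⟨C, hC, h5⟩ := pl_ubT hp hζ hPg hN c h1 h4 L' hL' η hη
    refine ⟨C, hC, fun E Y hY Rs hRs => h5 E Y hY Rs fun ψ hψ => ?_⟩
    rw [trn_pu hp hζ hLP c E Y]
    exact hRs ψ hψ
  · intro K _ ζ hζ z hz D L φ₀ h₀ hs hun
    obtain ⟨-, z', hz', hz2, -, h3, -⟩ := key K ζ hζ z hz D
    obtain ⟨L', hL', hLL⟩ := nl_exists (Ω := QBar) hp hz' hζ hz2 L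
    have hLP : ∀ v hv, (L'.ld v hv).P = (L.ld v hv).P := fun v hv => (hLL v hv).1
    obtain ⟨C, X₀, hC, hX₀, h5⟩ := pl_posT hp hζ hPg c T h3 L' hL' φ₀ h₀ hs
      (fun v hv τ hτ => hun v hv τ (by rw [← trn_in hLP v hv]; exact hτ))
    refine ⟨C, X₀, hC, hX₀, fun X hX => ?_⟩
    obtain ⟨Rs, h6, h7⟩ := h5 X hX
    refine ⟨Rs, h6, fun φ hφ => ?_⟩
    obtain ⟨g1, g2, T', g3, g4, g5, g6⟩ := h7 φ hφ
    refine ⟨g1, g2, T', g3, g4, fun v hv => ?_, fun v hv hv' τ hτ => ?_⟩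
    · obtain ⟨i, h, g7, g8⟩ := g5 v hv
      exact ⟨i, h, g7, fun τ hτ => g8 τ (by rw [trn_in hLP v (g3 v hv)]; exact hτ)⟩
    · exact g6 v hv hv' τ (by rw [trn_in hLP v hv]; exact hτ)

/-- THEOREM NS from the three chapters -/
theorem ns_of (n : ℕ) (hn : 2 ≤ n) (G : Subgroup (Equiv.Perm (Fin n)))
    (hG : MulAction.IsPretransitive G (Fin n)) (hnil : Group.IsNilpotent G) (p : ℕ)
    (hp : p.Prime) (hA : APst2 p) (hB : BL2 p) (hGP : GP2 p) (hser : SerG G p) :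
    ∃ K₀ : IntermediateField ℚ (AlgebraicClosure ℚ), NumberField K₀ ∧
      ∀ K : IntermediateField ℚ (AlgebraicClosure ℚ), K₀ ≤ K → ∀ _ : NumberField K, Asy G K :=
  fin_ns n hn G hG hnil p hp (plvT hp hA hB hGP) hser

end H51.AC2
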