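import Pool.Agent.H51.AC2.Defs
import Pool.Agent.H35.AC.Pl
import Pool.Agent.H77.FLD.Esc

/-!
# H51-AC2-TRN: changing the inertia generators

If `L`, `L'` have the same primes then `SYT`, `PU` are the same.
-/

set_option autoImplicit false

open scoped NumberField
open IsDedekindDomain Filter Topology
open scoped Classical

noncomputable section

namespace H51.AC2

open H38.ML H63.MA H38.BB H38.BG H57.PC H57.BRA H38.AS H77.WD H77.PC3 H77.S0T H77.FLD H77.PLF H35.CF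
  H35.UB H35.AC H51.PF H24.RK

variable {K : Type} [Field K] [NumberField K] {Ω : Type} [Field Ω] [Algebra K Ω]
  [IsAlgClosure K Ω] {p N : ℕ} {ζ : K} {P : Type} [Group P]

/-- a family of primes which contains those of `L` -/
theorem dp_of {D : RD0 K p ζ} (L : LDs D Ω) : ∃ Q : DP K Ω, LQ L Q := by
  obtain ⟨Q₀⟩ := exists_DP K Ω
  refine ⟨⟨fun v => if h : v ∉ D.S0 then (L.ld v h).P else Q₀.P v, fun v => ?_, fun v => ?_⟩,
    fun v h => ?_⟩
  · by_cases h : v ∉ D.S0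
    · rw [dif_pos h]
      exact (L.ld v h).prime
    · rw [dif_neg h]
      exact Q₀.prime v
  · by_cases h : v ∉ D.S0
    · rw [dif_pos h]
      exact (L.ld v h).under
    · rw [dif_neg h]
      exact Q₀.under v
  · show _ = dite _ _ _
    rw [dif_pos h]

theorem trn_lq {D : RD0 K p ζ} {L L' : LDs D Ω} (h : ∀ v hv, (L'.ld v hv).P = (L.ld v hv).P)
    {Q : DP K Ω} (hL : LQ L Q) : LQ L' Q := fun v hv => (h v hv).trans (hL v hv)

theorem trn_in {D : RD0 K p ζ} {L L' : LDs D Ω} (h : ∀ v hv, (L'.ld v hv).P = (L.ld v hv).P)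
    (v : Pl K) (hv : v ∉ D.S0) : inr L' v = inr L v := by
  unfold inr
  rw [dif_pos hv, dif_pos hv, h v hv]

theorem trn_ty [Finite P] (hp : p.Prime) (hζ : IsPrimitiveRoot ζ p) {D : RD0 K p ζ}
    {L L' : LDs D Ω} (h : ∀ v hv, (L'.ld v hv).P = (L.ld v hv).P) (c : CL p N P)
    {φ : Gal(Ω/K) →* P} (hφ : H38.ML.FT φ) (v : Pl K) (hv : v ∉ D.S0) (i : Fin N) :
    TyC c L' φ i v ↔ TyC c L φ i v := by
  obtain ⟨Q, hQ⟩ := dp_of L
  exact ((esc_ty hp hζ (fun _ h => h) L L' Q hQ (trn_lq h hQ) c φ hφ v hv).2 i).symm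

theorem trn_syt [Finite P] (hp : p.Prime) (hζ : IsPrimitiveRoot ζ p) {D : RD0 K p ζ}
    {L L' : LDs D Ω} (h : ∀ v hv, (L'.ld v hv).P = (L.ld v hv).P) (Q : DP K Ω) (c : CL p N P)
    (T : Subgroup P) (φ₁ : Gal(Ω/K) →* P) (Y : ℝ) : SYT L' Q c T φ₁ Y = SYT L Q c T φ₁ Y := by
  ext φ
  constructor
  · rintro ⟨h1, h2, h3, h4, h5⟩
    refine ⟨h1, h2, h3, fun v hv => ?_, fun X hX => h5 X fun v hv => ?_⟩
    · rcases h4 v hv with h6 | ⟨i, hi⟩
      · exact Or.inl (by rw [← trn_in h v hv]; exact h6)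
      · exact Or.inr ⟨i, (trn_ty hp hζ h c h1 v hv i).1 hi⟩
    · obtain ⟨h6, h7⟩ := hX v hv
      exact ⟨h6, by rw [trn_in h v h6]; exact h7⟩
  · rintro ⟨h1, h2, h3, h4, h5⟩
    refine ⟨h1, h2, h3, fun v hv => ?_, fun X hX => h5 X fun v hv => ?_⟩
    · rcases h4 v hv with h6 | ⟨i, hi⟩
      · exact Or.inl (by rw [trn_in h v hv]; exact h6)
      · exact Or.inr ⟨i, (trn_ty hp hζ h c h1 v hv i).2 hi⟩
    · obtain ⟨h6, h7⟩ := hX v hv
      exact ⟨h6, by rw [← trn_in h v h6]; exact h7⟩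

theorem trn_pu [Finite P] (hp : p.Prime) (hζ : IsPrimitiveRoot ζ p) {D : RD0 K p ζ}
    {L L' : LDs D Ω} (h : ∀ v hv, (L'.ld v hv).P = (L.ld v hv).P) (c : CL p N P)
    (E : Finset (Pl K)) (Y : ℝ) : PU L' c E Y = PU L c E Y := by
  ext φ
  constructor
  · rintro ⟨h1, h2, h4, h5⟩
    refine ⟨h1, h2, fun v hv hE => ?_, fun X hX => h5 X fun v hv => ?_⟩
    · rcases h4 v hv hE with h6 | ⟨i, hi⟩
      · exact Or.inl (by rw [← trn_in h v hv]; exact h6)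
      · exact Or.inr ⟨i, (trn_ty hp hζ h c h1 v hv i).1 hi⟩
    · obtain ⟨h6, h7, h8⟩ := hX v hv
      exact ⟨h6, h7, by rw [trn_in h v h6]; exact h8⟩
  · rintro ⟨h1, h2, h4, h5⟩
    refine ⟨h1, h2, fun v hv hE => ?_, fun X hX => h5 X fun v hv => ?_⟩
    · rcases h4 v hv hE with h6 | ⟨i, hi⟩
      · exact Or.inl (by rw [trn_in h v hv]; exact h6)
      · exact Or.inr ⟨i, (trn_ty hp hζ h c h1 v hv i).2 hi⟩
    · obtain ⟨h6, h7, h8⟩ := hX v hv
      exact ⟨h6, h7, by rw [← trn_in h v h6]; exact h8⟩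

/-- a root of unity of order `p ^ (n + 1)` over `ζ` -/
theorem zn_norm {K : Type} [Field K] {p n : ℕ} (hp : p.Prime) {ζ z : K}
    (hζ : IsPrimitiveRoot ζ p) (hz : IsPrimitiveRoot z (p ^ (n + 1))) :
    ∃ z' : K, IsPrimitiveRoot z' (p ^ (n + 1)) ∧ z' ^ p ^ n = ζ := by
  have h0 : p ^ (n + 1) = p ^ n * p := pow_succ p n
  have h1 : IsPrimitiveRoot (z ^ p ^ n) p := hz.pow (pow_pos hp.pos _) h0
  have : NeZero p := ⟨hp.ne_zero⟩
  obtain ⟨i, hi, hi2, h2⟩ := (h1.isPrimitiveRoot_iff).1 hζ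
  refine ⟨z ^ i, hz.pow_of_coprime i ?_, ?_⟩
  · exact Nat.Coprime.pow_right _ hi2
  · rw [← h2, ← pow_mul, ← pow_mul, mul_comm]

end H51.AC2
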