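import Pool.Agent.H51.AC2.Trn

/-!
# H51-AC2-PL: the P-level statements of stage 2 from UB and AP (as H35/AC/Pl.lean)

* `pl_limT`: (L). `pl_posT`: (P). `pl_ubT`: (U), for normalised local data.
-/

set_option autoImplicit false

open scoped NumberField
open IsDedekindDomain Filter Topology
open scoped Classical

noncomputable section

namespace H51.AC2

open H38.ML H63.MA H38.BB H38.BG H57.PC H57.BRA H57.CC H38.AS H77.WD H77.WE H77.PC3 H77.S0T H77.FLD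
  H77.PLF H35.UB H35.AC H51.PF H24.RK

variable {K : IntermediateField ℚ QBar} [NumberField K] {p : ℕ} {ζ : K} {D : RD0 K p ζ}
  {P : Type} [Group P] [Finite P] {N : ℕ}

private theorem eps_ok {B : ℝ} (hB : 0 ≤ B) : 0 < 1 / (2 * (B + 1)) ∧ 1 / (2 * (B + 1)) < 1 ∧
    B * (1 / (2 * (B + 1))) ≤ 1 / 2 := by
  have h1 : 0 < 2 * (B + 1) := by linarith
  refine ⟨by positivity, ?_, ?_⟩
  · rw [div_lt_one h1]
    linarith
  · rw [mul_one_div, div_le_div_iff₀ h1 (by norm_num)]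
    linarith

private theorem log_ge {Y : ℝ} (hY : 3 ≤ Y) : 1 ≤ Real.log Y := by
  rw [Real.le_log_iff_exp_le (by linarith)]
  have := Real.exp_one_lt_d9
  linarith

private theorem pow_bd {N : ℕ} (hN : 1 ≤ N) {l b : ℝ} (hl : 1 ≤ l) (hb : b ≤ 1 / 2) :
    l ^ ((N : ℝ) - 2 + b) ≤ l ^ (N - 1) * l ^ (-(1 / 2) : ℝ) := by
  have h0 : 0 < l := by linarith
  have h1 : l ^ (N - 1) = l ^ ((N : ℝ) - 1) := by
    rw [← Real.rpow_natCast, Nat.cast_sub hN, Nat.cast_one]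
  rw [h1, ← Real.rpow_add h0]
  exact Real.rpow_le_rpow_of_exponent_le hl (by linarith)

/-- (L), from UB and AP -/
theorem pl_limT (hp : p.Prime) (hζ : IsPrimitiveRoot ζ p) (hP : IsPGroup p P) (hN : 1 ≤ N)
    (c : CL p N P) (T : Subgroup P) {n : ℕ} {z : K} (hU : UBK D c) (hA : APlT D c T n z)
    (L : LDs D QBar) (hL : NL n z L) (Q : DP K QBar) (hLQ : LQ L Q)
    (φ₁ : Gal(QBar/K) →* P) (hφ : FT φ₁) :
    ∃ L₀ : ℝ, Tendsto (fun Y : ℝ => ((SYT L Q c T φ₁ Y).ncard : ℝ) /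
      (Y * Real.log Y ^ (N - 1))) atTop (𝓝 L₀) := by
  obtain ⟨M, hA⟩ := hA
  obtain ⟨M₀, B, hB, hU⟩ := hU
  obtain ⟨hε, hε1, hBε⟩ := eps_ok hB
  set ε : ℝ := 1 / (2 * (B + 1)) with hεd
  obtain ⟨l, hl⟩ := hA ε hε hε1 L hL Q hLQ φ₁ hφ
  obtain ⟨C, Y₀, hC, hY₀, hUb⟩ := hU (max M M₀) 0 ε (le_max_right _ _) hε hε1
  obtain ⟨_, _, -, -, htr⟩ := trv hp hζ hP L c
  refine ⟨l, ?_⟩
  have hb : Tendsto (fun Y : ℝ => ((SYT L Q c T φ₁ Y).ncard : ℝ) / (Y * Real.log Y ^ (N - 1)) -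
      ({φ | φ ∈ SYT L Q c T φ₁ Y ∧ Rch L c ∅ M ε Y φ}.ncard : ℝ) / (Y * Real.log Y ^ (N - 1)))
      atTop (𝓝 0) := by
    have hlim : Tendsto (fun Y : ℝ => C * Real.log Y ^ (-(1 / 2) : ℝ)) atTop (𝓝 0) := by
      have h1 := (tendsto_rpow_neg_atTop (by norm_num : (0 : ℝ) < 1 / 2)).comp
        Real.tendsto_log_atTop
      have h2 := h1.const_mul C
      rw [mul_zero] at h2
      exact h2
    refine squeeze_zero' ?_ ?_ hlim
    · filter_upwards [eventually_ge_atTop (max Y₀ 3)] with Y hY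
      have hY3 : 3 ≤ Y := (le_max_right _ _).trans hY
      have hlog := log_ge hY3
      have hden : 0 < Y * Real.log Y ^ (N - 1) := by positivity
      rw [← sub_div]
      refine div_nonneg (sub_nonneg.2 ?_) hden.le
      have hfin := (htr ∅ Y (by linarith)).1.subset (syt_sub L Q c T φ₁ Y)
      have h1 : {φ | φ ∈ SYT L Q c T φ₁ Y ∧ Rch L c ∅ M ε Y φ} ⊆ SYT L Q c T φ₁ Y := fun φ hφ => hφ.1
      exact_mod_cast Set.ncard_le_ncard h1 hfin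
    · filter_upwards [eventually_ge_atTop (max Y₀ 3)] with Y hY
      have hY3 : 3 ≤ Y := (le_max_right _ _).trans hY
      have hYY : Y₀ ≤ Y := (le_max_left _ _).trans hY
      have hlog := log_ge hY3
      have hY0 : 0 < Y := by linarith
      have hlp : 0 < Real.log Y ^ (N - 1) := by positivity
      have hden : 0 < Y * Real.log Y ^ (N - 1) := by positivity
      have hfin := (htr ∅ Y (by linarith)).1.subset (syt_sub L Q c T φ₁ Y)
      obtain ⟨hf2, hb2⟩ := hUb L ∅ Y hYY (by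
        unfold nr
        rw [Finset.prod_empty, Real.rpow_zero]) (fun v hv => absurd hv (Finset.notMem_empty v))
      have h1 := Set.ncard_inter_add_ncard_diff_eq_ncard (SYT L Q c T φ₁ Y)
        {φ | Rch L c ∅ M ε Y φ} hfin
      have h2 : (SYT L Q c T φ₁ Y \ {φ | Rch L c ∅ M ε Y φ}).ncard ≤
          {φ | φ ∈ PU L c ∅ Y ∧ Por L c ∅ (max M M₀) ε Y φ}.ncard := by
        refine Set.ncard_le_ncard (fun φ hφ => ?_) hf2
        exact ⟨syt_sub L Q c T φ₁ Y hφ.1, por_of L c ∅ (le_max_left _ _) hφ.2⟩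
      have h3 : ((SYT L Q c T φ₁ Y).ncard : ℝ) -
          ({φ | φ ∈ SYT L Q c T φ₁ Y ∧ Rch L c ∅ M ε Y φ}.ncard : ℝ) ≤
          C * Y * Real.log Y ^ ((N : ℝ) - 2 + B * ε) := by
        have h4 : ({φ | φ ∈ SYT L Q c T φ₁ Y ∧ Rch L c ∅ M ε Y φ}.ncard : ℝ) +
            ((SYT L Q c T φ₁ Y \ {φ | Rch L c ∅ M ε Y φ}).ncard : ℝ) =
            ((SYT L Q c T φ₁ Y).ncard : ℝ) := by exact_mod_cast h1
        have h5 : ((SYT L Q c T φ₁ Y \ {φ | Rch L c ∅ M ε Y φ}).ncard : ℝ) ≤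
            ({φ | φ ∈ PU L c ∅ Y ∧ Por L c ∅ (max M M₀) ε Y φ}.ncard : ℝ) := by exact_mod_cast h2
        rw [Finset.card_empty, pow_zero, mul_one] at hb2
        linarith
      rw [← sub_div, div_le_iff₀ hden]
      refine h3.trans ?_
      have h6 := pow_bd hN hlog hBε
      calc C * Y * Real.log Y ^ ((N : ℝ) - 2 + B * ε)
          ≤ C * Y * (Real.log Y ^ (N - 1) * Real.log Y ^ (-(1 / 2) : ℝ)) :=
            mul_le_mul_of_nonneg_left h6 (by positivity)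
        _ = C * Real.log Y ^ (-(1 / 2) : ℝ) * (Y * Real.log Y ^ (N - 1)) := by ring
  have h1 := hl.add hb
  rw [add_zero] at h1
  refine h1.congr fun Y => ?_
  ring

/-- (P), from AP -/
theorem pl_posT (hp : p.Prime) (hζ : IsPrimitiveRoot ζ p) (hP : IsPGroup p P) (c : CL p N P)
    (T : Subgroup P) {n : ℕ} {z : K} (hA : APpT D c T n z) (L : LDs D QBar) (hL : NL n z L)
    (φ₀ : Gal(QBar/K) →* P) (h₀ : FT φ₀) (hs : Function.Surjective φ₀)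
    (hun : ∀ v, v ∉ D.S0 → ∀ τ ∈ inr L v, φ₀ τ = 1) : LBd L c.g := by
  obtain ⟨M, ε, hA⟩ := hA
  obtain ⟨Q, hLQ⟩ := dp_of L
  obtain ⟨c₀, hc₀, hev⟩ := hA L hL Q hLQ φ₀ h₀ hs hun
  obtain ⟨_, _, -, -, htr⟩ := trv hp hζ hP L c
  obtain ⟨X₁, hX₁⟩ := eventually_atTop.1 hev
  refine ⟨c₀, max X₁ 3, hc₀, le_max_right _ _, fun X hX => ?_⟩
  have hX3 : 3 ≤ X := (le_max_right _ _).trans hX
  have hsub := syt_sub L Q c T φ₀ X
  have hfin : {φ | φ ∈ SYT L Q c T φ₀ X ∧ Rch L c ∅ M ε X φ}.Finite :=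
    (htr ∅ X (by linarith)).1.subset fun φ hφ => hsub hφ.1
  refine ⟨hfin.toFinset, ?_, fun φ hφ => ?_⟩
  · have h1 := hX₁ X ((le_max_left _ _).trans hX)
    rw [Set.ncard_eq_toFinset_card _ hfin] at h1
    rw [mul_assoc]
    exact h1
  · rw [Set.Finite.mem_toFinset] at hφ
    have h1 := hsub hφ.1
    have hI : ∀ v, ∀ τ ∈ inr L v, ∃ k : ℕ, φ τ ^ (p ^ k) = 1 := fun v τ _ => hP (φ τ)
    refine ⟨h1.1, h1.2.1, nfs L ∅ φ, fun v hv => ((mem_nfs h1 v).1 hv).1, ?_, fun v hv => ?_,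
      fun v hv hv2 => ?_⟩
    · have h2 := nfs_AF h1
      rw [mem_AF] at h2
      exact h2
    · obtain ⟨h2, h3, h4⟩ := (mem_nfs h1 v).1 hv
      rcases h1.2.2.1 v h2 h3 with h5 | ⟨i, hi⟩
      · exact absurd (h5 _ (lt_mem L h2)) h4
      · exact ⟨i, φ (L.t v), hi.2.1, (H48.MF.ing_inr hp hζ L h2 φ h1.1 (hI v)).1⟩
    · have h2 : φ (L.t v) = 1 := by
        by_contra h3
        exact hv2 ((mem_nfs h1 v).2 ⟨hv, Finset.notMem_empty v, h3⟩)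
      exact (H48.MF.ing_inr hp hζ L hv φ h1.1 (hI v)).2.2 h2

/-- (U), from UB and AP -/
theorem pl_ubT (hp : p.Prime) (hζ : IsPrimitiveRoot ζ p) (hP : IsPGroup p P) (hN : 1 ≤ N)
    (c : CL p N P) {n : ℕ} {z : K} (hU : UBK D c) (hA : APuT D c n z) (L : LDs D QBar)
    (hL : NL n z L) (η : ℝ) (hη : 0 < η) :
    ∃ C : ℝ, 0 < C ∧ ∀ (E : Finset (Pl K)) (Y : ℝ), 1 ≤ Y →
      ∀ Rs : Finset (Gal(QBar/K) →* P), (∀ ψ ∈ Rs, ψ ∈ PU L c E Y) →
        (Rs.card : ℝ) ≤ C * nr E ^ η * Y * (1 + Real.log Y) ^ (N - 1) := by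
  obtain ⟨M, hA⟩ := hA
  obtain ⟨M₀, B, hB, hU⟩ := hU
  obtain ⟨hε, hε1, hBε⟩ := eps_ok hB
  set ε : ℝ := 1 / (2 * (B + 1)) with hεd
  obtain ⟨C₃, A₃, hC₃, hA₃, htr⟩ := trv hp hζ hP L c
  set A₁ : ℝ := 2 * A₃ / η + 1 with hA₁
  have hA₁0 : 0 < A₁ := by positivity
  have hAA : A₃ / A₁ ≤ η / 2 := by
    rw [div_le_div_iff₀ hA₁0 (by norm_num), hA₁]
    have h1 : η * (2 * A₃ / η + 1) = 2 * A₃ + η := by field_simp
    rw [h1]
    linarith
  have hη2 : 0 < η / 2 := by positivity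
  obtain ⟨C₁, Y₁, hC₁, hY₁, hAb⟩ := hA L hL A₁ ε (η / 2) hε hε1 hη2
  obtain ⟨C₂, Y₂, hC₂, hY₂, hUb⟩ := hU (max M M₀) A₁ ε (le_max_right _ _) hε hε1
  have hcP : 1 ≤ (Nat.card P : ℝ) := by exact_mod_cast Nat.card_pos
  obtain ⟨κ, hκ, hκE⟩ := cst_pow K hcP hη2
  obtain ⟨κ₁, hκ₁, hκ₁E⟩ := cst_pow K hC₁ hη2
  -- the three cases
  set Y₀ : ℝ := max Y₁ Y₂ with hY₀
  have hY₀3 : 3 ≤ Y₀ := hY₁.trans (le_max_left _ _)
  set D₁ : ℝ := C₃ * κ * 2 ^ A₃ with hD₁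
  set D₂ : ℝ := C₁ * κ₁ + C₂ * κ with hD₂
  set D₃ : ℝ := C₃ * κ * (1 + Real.log Y₀) ^ A₃ with hD₃
  have hlY₀ : 0 ≤ Real.log Y₀ := Real.log_nonneg (by linarith)
  have hD₁0 : 0 < D₁ := by positivity
  have hD₂0 : 0 < D₂ := by positivity
  have hD₃0 : 0 < D₃ := by positivity
  refine ⟨D₁ + D₂ + D₃, by positivity, fun E Y hY Rs hRs => ?_⟩
  have hlY : 0 ≤ Real.log Y := Real.log_nonneg hY
  have hY0 : 0 < Y := by linarith
  set E' : Finset (Pl K) := E \ D.S0 with hE'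
  have hnr : nr E' ≤ nr E := nr_mono Finset.sdiff_subset
  have hn1 : 1 ≤ nr E' := one_le_nr E'
  have hn0 : 0 < nr E' := by linarith
  obtain ⟨hfin, hbd⟩ := htr E' Y hY
  have hR : (Rs.card : ℝ) ≤ ((PU L c E' Y).ncard : ℝ) := by
    have h1 : (Rs : Set (Gal(QBar/K) →* P)) ⊆ PU L c E' Y := by
      rw [hE', pu_sdiff]
      exact hRs
    have h2 := Set.ncard_le_ncard h1 hfin
    rw [Set.ncard_coe_finset] at h2
    exact_mod_cast h2
  have hpw : 1 ≤ (1 + Real.log Y) ^ (N - 1) := one_le_pow₀ (by linarith)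
  -- it is enough to have the bound for `E'`
  have key : ∀ D' : ℝ, 0 ≤ D' → D' ≤ D₁ + D₂ + D₃ →
      (Rs.card : ℝ) ≤ D' * nr E' ^ η * Y * (1 + Real.log Y) ^ (N - 1) →
      (Rs.card : ℝ) ≤ (D₁ + D₂ + D₃) * nr E ^ η * Y * (1 + Real.log Y) ^ (N - 1) := by
    intro D' hD' hD'' h
    refine h.trans ?_
    have h1 : nr E' ^ η ≤ nr E ^ η := Real.rpow_le_rpow hn0.le hnr hη.le
    have h2 : 0 ≤ nr E' ^ η := Real.rpow_nonneg hn0.le _
    have h3 : D' * nr E' ^ η ≤ (D₁ + D₂ + D₃) * nr E ^ η :=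
      mul_le_mul hD'' h1 h2 (by positivity)
    exact mul_le_mul_of_nonneg_right (mul_le_mul_of_nonneg_right h3 hY0.le) (by linarith)
  have hhalf : nr E' ^ (η / 2) * nr E' ^ (η / 2) = nr E' ^ η := by
    rw [← Real.rpow_add hn0, add_halves]
  have hhle : nr E' ^ (η / 2) ≤ nr E' ^ η :=
    Real.rpow_le_rpow_of_exponent_le hn1 (by linarith)
  have hh0 : 0 ≤ nr E' ^ (η / 2) := Real.rpow_nonneg hn0.le _
  have hh1 : 0 ≤ nr E' ^ η := Real.rpow_nonneg hn0.le _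
  by_cases hYY : Y < Y₀
  · refine key D₃ hD₃0.le (by linarith) (hR.trans (hbd.trans ?_))
    have h1 : (1 + Real.log Y) ^ A₃ ≤ (1 + Real.log Y₀) ^ A₃ :=
      Real.rpow_le_rpow (by linarith) (by linarith [Real.log_le_log hY0 hYY.le]) hA₃
    have h2 := (hκE E').trans (mul_le_mul_of_nonneg_left hhle (by linarith : (0 : ℝ) ≤ κ))
    calc C₃ * (Nat.card P : ℝ) ^ E'.card * Y * (1 + Real.log Y) ^ A₃
        ≤ C₃ * (κ * nr E' ^ η) * Y * (1 + Real.log Y₀) ^ A₃ := by gcongr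
      _ = D₃ * nr E' ^ η * Y * 1 := by rw [hD₃]; ring
      _ ≤ D₃ * nr E' ^ η * Y * (1 + Real.log Y) ^ (N - 1) := by gcongr
  have hYY' : Y₀ ≤ Y := not_lt.1 hYY
  have hY3 : 3 ≤ Y := hY₀3.trans hYY'
  have hl1 := log_ge hY3
  have hl0 : 0 < Real.log Y := by linarith
  by_cases hbig : nr E' ≤ Real.log Y ^ A₁
  · have hE0 : ∀ v ∈ E', v ∉ D.S0 := fun v hv => (Finset.mem_sdiff.1 hv).2
    obtain ⟨hf1, hb1⟩ := hAb E' Y ((le_max_left _ _).trans hYY') hbig hE0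
    obtain ⟨hf2, hb2⟩ := hUb L E' Y ((le_max_right _ _).trans hYY') hbig hE0
    refine key D₂ hD₂0.le (by linarith) ?_
    have h1 : PU L c E' Y ⊆ {φ | φ ∈ PU L c E' Y ∧ Rch L c E' M ε Y φ} ∪
        {φ | φ ∈ PU L c E' Y ∧ Por L c E' (max M M₀) ε Y φ} := by
      intro φ hφ
      by_cases h2 : Rch L c E' M ε Y φ
      · exact Or.inl ⟨hφ, h2⟩
      · exact Or.inr ⟨hφ, por_of L c E' (le_max_left _ _) h2⟩
    have h2 := (Set.ncard_le_ncard h1 (hf1.union hf2)).trans (Set.ncard_union_le _ _)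
    have h3 : ((PU L c E' Y).ncard : ℝ) ≤
        ({φ | φ ∈ PU L c E' Y ∧ Rch L c E' M ε Y φ}.ncard : ℝ) +
        ({φ | φ ∈ PU L c E' Y ∧ Por L c E' (max M M₀) ε Y φ}.ncard : ℝ) := by exact_mod_cast h2
    have h4 : C₁ ^ (E'.card + 1) * nr E' ^ (η / 2) ≤ C₁ * κ₁ * nr E' ^ η := by
      rw [pow_succ', ← hhalf]
      have h41 := mul_le_mul_of_nonneg_right (mul_le_mul_of_nonneg_left (hκ₁E E')
        (by linarith : (0 : ℝ) ≤ C₁)) hh0
      refine h41.trans (le_of_eq ?_)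
      ring
    have h5 : Real.log Y ^ (N - 1) ≤ (1 + Real.log Y) ^ (N - 1) :=
      pow_le_pow_left₀ hl0.le (by linarith) _
    have h6 : Real.log Y ^ ((N : ℝ) - 2 + B * ε) ≤ (1 + Real.log Y) ^ (N - 1) := by
      refine (pow_bd hN hl1 hBε).trans ?_
      have h7 : Real.log Y ^ (-(1 / 2) : ℝ) ≤ 1 :=
        Real.rpow_le_one_of_one_le_of_nonpos hl1 (by norm_num)
      refine le_trans ?_ h5
      exact mul_le_of_le_one_right (by positivity) h7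
    have h7 := (hκE E').trans (mul_le_mul_of_nonneg_left hhle (by linarith : (0 : ℝ) ≤ κ))
    have hpw0 : 0 ≤ (1 + Real.log Y) ^ (N - 1) := by linarith
    have hC₂0 : 0 ≤ C₂ := by linarith
    have hC₁0 : 0 ≤ C₁ := by linarith
    have hκ₁0 : 0 ≤ κ₁ := by linarith
    have h8 : C₁ ^ (E'.card + 1) * nr E' ^ (η / 2) * Y * Real.log Y ^ (N - 1) ≤
        C₁ * κ₁ * nr E' ^ η * Y * (1 + Real.log Y) ^ (N - 1) :=
      mul_le_mul (mul_le_mul_of_nonneg_right h4 hY0.le) h5 (by positivity) (by positivity)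
    have hκ0 : 0 ≤ κ := by linarith
    have h9 : C₂ * (Nat.card P : ℝ) ^ E'.card * Y * Real.log Y ^ ((N : ℝ) - 2 + B * ε) ≤
        C₂ * (κ * nr E' ^ η) * Y * (1 + Real.log Y) ^ (N - 1) :=
      mul_le_mul (mul_le_mul_of_nonneg_right (mul_le_mul_of_nonneg_left h7 hC₂0) hY0.le) h6
        (Real.rpow_nonneg hl0.le _) (by positivity)
    calc (Rs.card : ℝ) ≤ _ := hR.trans h3
      _ ≤ _ := add_le_add (hb1.trans h8) (hb2.trans h9)
      _ = D₂ * nr E' ^ η * Y * (1 + Real.log Y) ^ (N - 1) := by rw [hD₂]; ring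
  · refine key D₁ hD₁0.le (by linarith) (hR.trans (hbd.trans ?_))
    have h1 : Real.log Y ^ A₃ ≤ nr E' ^ (η / 2) := by
      have h2 : Real.log Y ^ A₃ = (Real.log Y ^ A₁) ^ (A₃ / A₁) := by
        rw [← Real.rpow_mul hl0.le, mul_div_cancel₀ _ hA₁0.ne']
      rw [h2]
      refine (Real.rpow_le_rpow (Real.rpow_nonneg hl0.le _) (not_le.1 hbig).le
        (by positivity)).trans ?_
      exact Real.rpow_le_rpow_of_exponent_le hn1 hAA
    have h2 : (1 + Real.log Y) ^ A₃ ≤ 2 ^ A₃ * nr E' ^ (η / 2) := by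
      have h3 : (1 + Real.log Y) ^ A₃ ≤ (2 * Real.log Y) ^ A₃ :=
        Real.rpow_le_rpow (by linarith) (by linarith) hA₃
      rw [Real.mul_rpow (by norm_num) hl0.le] at h3
      exact h3.trans (mul_le_mul_of_nonneg_left h1 (by positivity))
    calc C₃ * (Nat.card P : ℝ) ^ E'.card * Y * (1 + Real.log Y) ^ A₃
        ≤ C₃ * (κ * nr E' ^ (η / 2)) * Y * (2 ^ A₃ * nr E' ^ (η / 2)) := by
          have h4 := hκE E'
          gcongr
      _ = D₁ * (nr E' ^ (η / 2) * nr E' ^ (η / 2)) * Y * 1 := by rw [hD₁]; ring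
      _ ≤ D₁ * nr E' ^ η * Y * (1 + Real.log Y) ^ (N - 1) := by
          rw [hhalf]
          gcongr

end H51.AC2
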